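import Pool.Agent.Helper93.RS.Main
import Pool.Agent.Helper87.RP.Const
import Pool.Agent.Helper97.RP.LowR

/-!
# Rational points at which `r` hyperplanes in general position have radicals of small product

Let `n ≥ 1`, `r ≥ n + 2`, and let `ℓ₁, …, ℓᵣ` be integer linear forms in `n + 1` variables in general
position (any `n + 1` of them are linearly independent). Put `E = max (n / r, (2 n + 1 - r) / n)`.
For every `ε > 0` there is `λ₀ > 0` such that for all `0 < λ ≤ λ₀`, all finite sets `S` of primes and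
all constants `A` the number of rational points `x` of `ℙⁿ` (primitive integer vectors,
`H(x) = max |x_j|`) of height `H(x) ≤ B` at which no `ℓᵢ(x)` vanishes and the radicals `R_i(x)` of the
`ℓᵢ(x)` outside `S` satisfy `∏ᵢ R_i(x) ≤ A * H(x) ^ λ` is `O(B ^ ((E + ε) λ))`. In terms of truncated
counting functions: `∑ᵢ N⁽¹⁾_S(Dᵢ, x) ≤ λ h(x) + O(1)`. The elementary exponent is `(n + 1) λ / r`.
Conversely, if `n + 2 ≤ r ≤ 2 n`, `A > 0` and `0 < λ ≤ 1`, then the number is at least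
`c B ^ ((2 n + 1 - r) λ / n)` for all large `B`, for all forms and all `S`. So the exponent `E λ` is the
true one, for all forms, if `r (2 n + 1 - r) ≥ n ^ 2`, that is if `r = n + k` with `k ≥ 2` and
`k (k - 1) ≤ n`; for instance for `r = n + 2`, `n ≥ 2`.
-/

set_option autoImplicit false

namespace Pool.Agent.Results.MP_464c42_nt.RadicalProduct

open Pool.Agent.Helper87.RP

theorem result :
    (∀ n r : ℕ, 1 ≤ n → n + 2 ≤ r → ∀ ε : ℝ, 0 < ε → ∃ lam₀ : ℝ, 0 < lam₀ ∧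
      ∀ lam : ℝ, 0 < lam → lam ≤ lam₀ →
      ∀ (S : Finset ℕ) (L : Matrix (Fin r) (Fin (n + 1)) ℤ), GenPos L →
      ∀ A : ℝ, ∃ C : ℝ, ∀ B : ℕ, 1 ≤ B → (pts S L A lam B).Finite ∧
        ((pts S L A lam B).ncard : ℝ) ≤
          C * (B : ℝ) ^ ((max ((n : ℝ) / r) ((2 * (n : ℝ) + 1 - r) / n) + ε) * lam)) ∧
    (∀ n r : ℕ, n + 2 ≤ r → r ≤ 2 * n → ∀ lam : ℝ, 0 < lam → lam ≤ 1 →
      ∀ (S : Finset ℕ) (L : Matrix (Fin r) (Fin (n + 1)) ℤ), GenPos L →
      ∀ A : ℝ, 0 < A → ∃ c : ℝ, 0 < c ∧ ∃ B₀ : ℕ, ∀ B : ℕ, B₀ ≤ B →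
        c * (B : ℝ) ^ ((2 * (n : ℝ) + 1 - r) / n * lam) ≤ ((pts S L A lam B).ncard : ℝ)) :=
  ⟨fun n r hn hr ε hε => const_up n r (max ((n : ℝ) / r) ((2 * (n : ℝ) + 1 - r) / n))
      (le_max_of_le_left (by positivity)) (Pool.Agent.Helper93.RS.main_s n r hn hr) ε hε,
    fun n r hr hr2 lam h0 h1 S L hL A hA =>
      Pool.Agent.Helper97.RP.LR.low_r n r hr hr2 S L hL A hA lam h0 h1⟩

end Pool.Agent.Results.MP_464c42_nt.RadicalProduct
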