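import Pool.Agent.Helper93.TS.Final

/-!
# Outside a universal thin set Campana points have almost bounded counts

Let `ℓ₀, …, ℓₙ₊₁` be integer linear forms in general position on `ℙⁿ` with multiplicities
`μ i ∈ {m, m + 1, …, ∞}`, and let `c`, `ε` be positive. For `m ≥ m₁(n, c, ε)` and a finite set `S`
of primes there is one set `E` of integers, independent of the forms and of the `μ i`, with
`O(X ^ ((1 - c / m) / m))` elements up to `X` (there are about `X ^ (1 / m)` integers up to `X` in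
which every prime outside `S` has exponent zero or at least `m`), such that all but
`O(B ^ (ε / m))` of the nondegenerate `ℤ[1/S]`-Campana points of height at most `B` have at least
two of the `n + 2` values `ℓ_i(x)` in `E`.
-/

set_option autoImplicit false

namespace Pool.Agent.Results.MP_464c42_nt.ThinSet

open Pool.Agent.Helper87.Camp

variable {n : ℕ}

/-- No sum over a proper nonempty subset of the terms of the relation `∑ᵢ (rel i) ℓᵢ(x) = 0` is
zero. -/
def NonDegenerate (L : Matrix (Fin (n + 2)) (Fin (n + 1)) ℤ) (x : Fin (n + 1) → ℤ) : Prop :=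
  ∀ J : Finset (Fin (n + 2)), J.Nonempty → J ≠ Finset.univ →
    ∑ i ∈ J, rel L i * form L i x ≠ 0

theorem result (n : ℕ) (c ε : ℝ) (hc : 0 < c) (hε : 0 < ε) :
    ∃ m₁ : ℕ, ∀ m : ℕ, m₁ ≤ m → ∀ S : Finset ℕ, ∃ E : Set ℤ,
      (∃ C : ℝ, ∀ X : ℕ, 1 ≤ X → {a ∈ E | |a| ≤ (X : ℤ)}.Finite ∧
        ({a ∈ E | |a| ≤ (X : ℤ)}.ncard : ℝ) ≤ C * (X : ℝ) ^ ((1 - c / m) / m)) ∧
      ∀ L : Matrix (Fin (n + 2)) (Fin (n + 1)) ℤ, (∀ i, minor L i ≠ 0) →
      ∀ μ : Fin (n + 2) → ℕ∞, (∀ i, (m : ℕ∞) ≤ μ i) → ∃ C : ℝ, ∀ B : ℕ, 1 ≤ B →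
        {x | IsCampana S L μ x ∧ NonDegenerate L x ∧ (∀ j, |x j| ≤ (B : ℤ)) ∧
          {i | form L i x ∈ E}.Subsingleton}.Finite ∧
        ({x | IsCampana S L μ x ∧ NonDegenerate L x ∧ (∀ j, |x j| ≤ (B : ℤ)) ∧
          {i | form L i x ∈ E}.Subsingleton}.ncard : ℝ) ≤ C * (B : ℝ) ^ (ε / m) :=
  Pool.Agent.Helper93.TS.thin n c ε hc hε

end Pool.Agent.Results.MP_464c42_nt.ThinSet
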