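import Pool.Agent.Helper24.TW.Up
import Pool.Agent.Helper24.TW.Low
import Pool.Agent.Helper87.TY.UpY

/-!
# Points of small radicals on projective space minus `n + 2` hyperplanes

Let `ℓ₀, …, ℓₙ₊₁` be integer linear forms in general position on `ℙⁿ`, `n ≥ 1`, and `y₀ ≤ … ≤ yₙ₊₁` numbers
in `[0, 1]`, `s = y₀ + … + yₙ₊₁`. Put `e(y) = s - yₙ₊₁ - y₁` if `n ≥ 2` and `e(y) = (y₀ + y₁) / 2` if `n = 1`.
For every `ε > 0` there is `λ₀ > 0`, which does not depend on `y`, such that for all `0 < λ ≤ λ₀` and all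
finite sets `S` of primes the number of rational points `x` of height `H(x) ≤ B` (primitive integer vectors,
`H(x) = max |x_j|`) for which every `ℓᵢ(x)` is nonzero and has radical outside `S` at most `H(x) ^ (yᵢ λ)` is
at most `C B ^ ((e(y) + ε) λ)`, with `C` independent of `y` and `B`. In terms of truncated counting functions:
`N⁽¹⁾_S(ℓᵢ = 0, x) ≤ yᵢ λ h(x)` for all `i`. The elementary exponent is `(s - yₙ₊₁) λ`.
Conversely, if `n ≥ 2`, `0 < λ ≤ 1` and all `yᵢ > 0` then for all such forms and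
all `S` the number is at least `c B ^ ((s - yₙ₊₁ - y₁) λ)` for all large `B`, with `c > 0`. So for `n ≥ 2` and
`y₀ > 0` this is the true exponent, up to `ε λ`.
-/

set_option autoImplicit false

namespace Pool.Agent.Results.MP_464c42_nt.Truncated

open Pool.Agent.Helper87.Camp Pool.Agent.Helper24.TU

theorem result :
    (∀ n : ℕ, 1 ≤ n → ∀ ε : ℝ, 0 < ε → ∃ lam₀ : ℝ, 0 < lam₀ ∧ ∀ lam : ℝ, 0 < lam → lam ≤ lam₀ →
      ∀ (S : Finset ℕ) (L : Matrix (Fin (n + 2)) (Fin (n + 1)) ℤ), (∀ i, minor L i ≠ 0) →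
      ∃ C : ℝ, ∀ y : Fin (n + 2) → ℝ, (∀ i, 0 ≤ y i ∧ y i ≤ 1) → Monotone y → ∀ B : ℕ, 1 ≤ B →
        ∀ A : Set (Fin (n + 1) → ℤ), A = {x | (∀ d : ℤ, (∀ j, d ∣ x j) → IsUnit d) ∧
          (∀ i, form L i x ≠ 0 ∧ (radS S (form L i x) : ℝ) ≤ (ht x : ℝ) ^ (y i * lam)) ∧
          ht x ≤ B} →
        A.Finite ∧
        (n = 1 → (A.ncard : ℝ) ≤ C * (B : ℝ) ^ (((y 0 + y 1) / 2 + ε) * lam)) ∧
        (2 ≤ n → (A.ncard : ℝ) ≤
          C * (B : ℝ) ^ ((∑ i, y i - y (Fin.last (n + 1)) - y 1 + ε) * lam))) ∧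
    (∀ n : ℕ, 2 ≤ n → ∀ lam : ℝ, 0 < lam → lam ≤ 1 →
      ∀ y : Fin (n + 2) → ℝ, (∀ i, 0 < y i ∧ y i ≤ 1) → Monotone y →
      ∀ (S : Finset ℕ) (L : Matrix (Fin (n + 2)) (Fin (n + 1)) ℤ), (∀ i, minor L i ≠ 0) →
      ∃ c : ℝ, 0 < c ∧ ∃ B₀ : ℕ, ∀ B : ℕ, B₀ ≤ B →
        c * (B : ℝ) ^ ((∑ i, y i - y (Fin.last (n + 1)) - y 1) * lam) ≤
          ({x : Fin (n + 1) → ℤ | (∀ d : ℤ, (∀ j, d ∣ x j) → IsUnit d) ∧
            (∀ i, form L i x ≠ 0 ∧ (radS S (form L i x) : ℝ) ≤ (ht x : ℝ) ^ (y i * lam)) ∧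
            ht x ≤ B}.ncard : ℝ)) := by
  refine ⟨fun n hn ε hε => ?_, fun n hn lam h0 h1 y hy hm S L hL =>
    Pool.Agent.Helper24.TW.low_w n hn lam h0 h1 y hy hm S L hL⟩
  rcases Nat.lt_or_ge n 2 with hn2 | hn2
  · obtain rfl : n = 1 := by omega
    obtain ⟨l1, hl1, h1⟩ := Pool.Agent.Helper24.TW.up_w 1 hn ε hε
    refine ⟨l1, hl1, fun lam h0 hle S L hL => ?_⟩
    obtain ⟨C1, hC1⟩ := h1 lam h0 hle S L hL
    refine ⟨C1, fun y hy hm B hB A hA => ?_⟩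
    obtain ⟨f1, g1⟩ := hC1 y hy hm B hB
    have hA' : A = Pool.Agent.Helper24.TW.ptsW S L y lam B := hA
    rw [← hA'] at f1 g1
    refine ⟨f1, fun _ => ?_, fun h => absurd h (by norm_num)⟩
    have he : ∑ i, y i - y (Fin.last (1 + 1)) - (y 0 + y 1) / 2 + ε = (y 0 + y 1) / 2 + ε := by
      have h3 : ∑ i, y i = y 0 + y 1 + y 2 := Fin.sum_univ_three y
      have h4 : y (Fin.last (1 + 1)) = y 2 := rfl
      rw [h3, h4]
      ring
    rw [he] at g1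
    exact g1
  · obtain ⟨l2, hl2, h2⟩ := Pool.Agent.Helper87.TY.up_y n hn2 ε hε
    refine ⟨l2, hl2, fun lam h0 hle S L hL => ?_⟩
    obtain ⟨C2, hC2⟩ := h2 lam h0 hle S L hL
    refine ⟨C2, fun y hy hm B hB A hA => ?_⟩
    obtain ⟨f2, g2⟩ := hC2 y hy hm B hB
    have hA' : A = Pool.Agent.Helper24.TW.ptsW S L y lam B := hA
    rw [← hA'] at f2 g2
    exact ⟨f2, fun h => absurd h (by omega), fun _ => g2⟩

end Pool.Agent.Results.MP_464c42_nt.Truncated
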