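import Pool.Agent.Helper85.VA.FinalU

/-!
# Campana points on very affine pairs off the Ueno-Kawamata locus

Let `X` be a projective variety in `ℙ^N` over `ℚ` given by integer forms of degree at most `D`. `X` minus the coordinate
hyperplanes is an arbitrary very affine variety. Let `Z` be the union of the positive dimensional cosets of subtori contained in
it. For every `ε > 0`, all `m ≥ m₁(N, D, k, ε)` and all finite `S`, the number of primitive vectors of height at most
`B` that represent points of `X` outside `Z`, with all coordinates of the type `Adm S m k R`, is at most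
`C R ^ (N + 1) B ^ (ε / m)`, where `C` depends only on `N, D, k, ε, m` and the cardinality of `S`. Examples: all Darmon points for multiplicities `μ_i ≥ m` (`k = 1`, `R = 1`), and the Campana points for
multiplicities at least `m` with at most `k` different exponents in the factorization of every coordinate.
-/

set_option autoImplicit false

open MvPolynomial

namespace Pool.Agent.Results.MP_464c42_nt.VeryAffine

/-- There are `e_1, …, e_k ≥ m` and a set `A` of primes with product at most `R` such that for all primes `p` outside `S` and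
`A` the valuation of `x` at `p` is a combination of the `e_j` with natural numbers as coefficients. -/
def Adm (S : Finset ℕ) (m k R : ℕ) (x : ℤ) : Prop :=
  ∃ (A : Finset ℕ) (e : Fin k → ℕ), (∀ p ∈ A, p.Prime) ∧ ∏ p ∈ A, p ≤ R ∧ (∀ j, m ≤ e j) ∧
    ∀ p : ℕ, p.Prime → p ∉ S → p ∉ A →
      ∃ c : Fin k → ℕ, x.natAbs.factorization p = ∑ j, c j * e j

/-- `x` is a primitive vector with nonzero coordinates representing a point of the projective variety `f = 0` that is not in a
positive dimensional coset of a subtorus contained in the variety: no nonconstant one-parameter group `T ↦ (T^λ_i)` moves `x` inside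
the variety. -/
structure OffZ {N r : ℕ} (f : Fin r → MvPolynomial (Fin (N + 1)) ℤ) (x : Fin (N + 1) → ℤ) :
    Prop where
  ne : ∀ i, x i ≠ 0
  prim : ∀ p : ℕ, p.Prime → ∃ i, ¬ (p : ℤ) ∣ x i
  zero : ∀ s, eval x (f s) = 0
  off : ∀ lam : Fin (N + 1) → ℕ, (∃ i j, lam i ≠ lam j) →
    ∃ s, aeval (fun i => Polynomial.C (x i) * Polynomial.X ^ lam i) (f s) ≠ (0 : Polynomial ℤ)

theorem result (N D k : ℕ) (ε : ℝ) (hε : 0 < ε) :
    ∃ m₁ : ℕ, ∀ m : ℕ, m₁ ≤ m → ∀ s : ℕ, ∃ C : ℝ, ∀ (r : ℕ)
      (f : Fin r → MvPolynomial (Fin (N + 1)) ℤ), (∀ i, ∃ d ≤ D, (f i).IsHomogeneous d) →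
      ∀ S : Finset ℕ, S.card ≤ s → ∀ B R : ℕ, 1 ≤ B → 1 ≤ R →
        {x : Fin (N + 1) → ℤ | OffZ f x ∧ ∀ i, |x i| ≤ (B : ℤ) ∧ Adm S m k R (x i)}.Finite ∧
        ({x : Fin (N + 1) → ℤ | OffZ f x ∧ ∀ i, |x i| ≤ (B : ℤ) ∧
            Adm S m k R (x i)}.ncard : ℝ) ≤
          C * (R : ℝ) ^ (N + 1) * (B : ℝ) ^ (ε / m) := by
  obtain ⟨m1, h1⟩ := Pool.Agent.Helper85.VA.finalU N D k ε hε
  refine ⟨m1, fun m hm s => ?_⟩
  obtain ⟨C, hC⟩ := h1 m hm s
  refine ⟨C, fun r f hf S hS B R hB hR => ?_⟩
  have hfin : {x : Fin (N + 1) → ℤ | OffZ f x ∧ ∀ i, |x i| ≤ (B : ℤ) ∧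
      Adm S m k R (x i)}.Finite := by
    refine (Set.Finite.pi' (t := fun _ : Fin (N + 1) => Set.Icc (-(B : ℤ)) B)
      fun _ => Set.finite_Icc _ _).subset ?_
    intro x hx i
    exact abs_le.mp (hx.2 i).1
  refine ⟨hfin, ?_⟩
  rw [Set.ncard_eq_toFinset_card _ hfin]
  refine hC r f hf S hS B R hB hR hfin.toFinset fun x hx => ?_
  rw [Set.Finite.mem_toFinset] at hx
  obtain ⟨h2, h3⟩ := hx
  exact ⟨fun i => ⟨h2.ne i, (h3 i).1⟩, h2.prim, h2.zero, h2.off, fun i => (h3 i).2⟩

end Pool.Agent.Results.MP_464c42_nt.VeryAffine
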